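import Mathlib
import Pool.Agent.Helper761.QDev6

set_option autoImplicit false

namespace Pool.Agent.Results.MP_ccd12e_gt.OpenSubspaces

open Set Topology TopologicalSpace

/-- A locally compact Hausdorff space with a development is locally second countable. -/
theorem locally_second_countable {X : Type} [TopologicalSpace X] [T2Space X]
    [LocallyCompactSpace X] (G : ℕ → Set (Set X)) (hGo : ∀ n, ∀ s ∈ G n, IsOpen s)
    (hGc : ∀ n, ⋃₀ G n = univ)
    (hG : ∀ x : X, ∀ W : Set X, IsOpen W → x ∈ W → ∃ n, ⋃₀ {s | s ∈ G n ∧ x ∈ s} ⊆ W) (x : X) :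
    ∃ N : Set X, IsOpen N ∧ x ∈ N ∧ SecondCountableTopology N := by
  obtain ⟨K, hK, hxK⟩ := exists_compact_mem_nhds x
  have hfin : ∀ n, ∃ t : Set (Set X), t ⊆ G n ∧ t.Finite ∧ K ⊆ ⋃₀ t := by
    intro n
    obtain ⟨t, ht1, ht2, ht3⟩ := hK.elim_finite_subcover_image (b := G n) (c := fun s => s) (hGo n) (by
      rw [← sUnion_eq_biUnion, hGc]
      exact subset_univ K)
    refine ⟨t, ht1, ht2, ?_⟩
    rw [sUnion_eq_biUnion]
    exact ht3
  choose t ht1 ht2 ht3 using hfin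
  refine ⟨interior K, isOpen_interior, mem_interior_iff_mem_nhds.2 hxK, ?_⟩
  have hB : IsTopologicalBasis
      ((fun b : Set X => (Subtype.val ⁻¹' b : Set (interior K))) '' ⋃ n, t n) := by
    apply isTopologicalBasis_of_isOpen_of_nhds
    · rintro _ ⟨b, hb, rfl⟩
      obtain ⟨n, hn⟩ := mem_iUnion.1 hb
      exact (hGo n b (ht1 n hn)).preimage continuous_subtype_val
    · intro y U hy hU
      obtain ⟨U', hU', rfl⟩ := isOpen_induced_iff.1 hU
      obtain ⟨n, hn⟩ := hG y.1 U' hU' hy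
      obtain ⟨b, hb, hyb⟩ := ht3 n (interior_subset y.2)
      refine ⟨_, ⟨b, mem_iUnion.2 ⟨n, hb⟩, rfl⟩, hyb, ?_⟩
      intro z hz
      exact hn ⟨b, ⟨ht1 n hb, hyb⟩, hz⟩
  exact hB.secondCountableTopology
    ((countable_iUnion fun n => (ht2 n).countable).image _)

/-- Every locally compact, locally connected Moore space all of whose open subspaces are countably
paracompact is metrizable. -/
theorem result :
    ∀ (X : Type) [TopologicalSpace X],
      T3Space X →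
      LocallyCompactSpace X →
      LocallyConnectedSpace X →
      (∀ s : Set X, IsOpen s →
        ∀ U : ℕ → Set s, (∀ n, IsOpen (U n)) → (⋃ n, U n) = Set.univ →
        ∃ V : ℕ → Set s, (∀ n, IsOpen (V n)) ∧ (∀ n, V n ⊆ U n) ∧
          (⋃ n, V n) = Set.univ ∧ LocallyFinite V) →
      (∃ G : ℕ → Set (Set X),
        (∀ n, ∀ s ∈ G n, IsOpen s) ∧
        (∀ n, ⋃₀ G n = Set.univ) ∧
        ∀ x : X, ∀ W : Set X, IsOpen W → x ∈ W →
          ∃ n, ⋃₀ {s | s ∈ G n ∧ x ∈ s} ⊆ W) →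
      TopologicalSpace.MetrizableSpace X := by
  rintro X _ _ _ _ hcp ⟨G, hGo, hGc, hG⟩
  refine Pool.Agent.Helper761.QD.main_cp (locally_second_countable G hGo hGc hG) hcp G
    ⟨hGo, ?_⟩
  intro x U hU hxU
  obtain ⟨k, hk⟩ := hG x U hU hxU
  obtain ⟨s, hs, hxs⟩ := mem_sUnion.1 ((hGc k).symm ▸ mem_univ x : x ∈ ⋃₀ G k)
  exact ⟨k, ⟨s, ⟨hs, hxs⟩, hxs⟩, hk⟩

end Pool.Agent.Results.MP_ccd12e_gt.OpenSubspaces
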